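import Pool.Agent.W645.WV.Stm

/-!
WV-HIGH: the dyadic pieces.
-/

set_option autoImplicit false
set_option maxHeartbeats 400000

open MeasureTheory Set Complex
open scoped ENNReal

namespace Pool.Agent.W856.WV

open Pool.Agent.W645.WV

/-! ### Fourier integrals -/

theorem norm_char (r : ℝ) : ‖cexp (2 * (Real.pi : ℂ) * I * (r : ℂ))‖ = 1 := by
  have e : 2 * (Real.pi : ℂ) * I * (r : ℂ) = ((2 * Real.pi * r : ℝ) : ℂ) * I := by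
    push_cast
    ring
  rw [e, norm_exp_ofReal_mul_I]

theorem norm_char_neg (r : ℝ) : ‖cexp (-(2 * (Real.pi : ℂ) * I * (r : ℂ)))‖ = 1 := by
  have e : -(2 * (Real.pi : ℂ) * I * (r : ℂ)) = ((-(2 * Real.pi * r) : ℝ) : ℂ) * I := by
    push_cast
    ring
  rw [e, norm_exp_ofReal_mul_I]

theorem FT_cont {n : ℕ} {f : (Fin n → ℝ) → ℂ} (hf : Integrable f) : Continuous (FT f) := by
  unfold FT
  refine continuous_of_dominated (bound := fun y => ‖f y‖) ?_ ?_ hf.norm ?_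
  · intro ξ
    refine AEStronglyMeasurable.mul ?_ hf.aestronglyMeasurable
    apply Continuous.aestronglyMeasurable
    fun_prop
  · intro ξ
    refine Filter.Eventually.of_forall (fun y => ?_)
    rw [norm_mul, norm_char_neg, one_mul]
  · refine Filter.Eventually.of_forall (fun y => ?_)
    fun_prop

theorem ift_int {n : ℕ} {g : (Fin n → ℝ) → ℂ} (hg : Integrable g) (x : Fin n → ℝ) :
    Integrable (fun ξ => g ξ * cexp (2 * (Real.pi : ℂ) * I * ((∑ j, x j * ξ j : ℝ) : ℂ))) := by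
  refine hg.norm.mono' ?_ (Filter.Eventually.of_forall (fun ξ => ?_))
  · refine hg.aestronglyMeasurable.mul ?_
    apply Continuous.aestronglyMeasurable
    fun_prop
  · rw [norm_mul, norm_char, mul_one]

/-! ### the four pieces -/

/-- the pieces of the wave -/
noncomputable def PC {n : ℕ} (χ : ℝ → ℂ) (σ L : ℝ) (f : (Fin n → ℝ) → ℂ) (a : Fin n → ℝ) (t : ℝ) :
    (Fin n → ℝ) → ℂ :=
  IFT (fun ξ => OS χ (σ * t * L) ((L ^ 2)⁻¹ * H a ξ) * FT f ξ)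

theorem H_cont {n : ℕ} : Continuous (fun q : (Fin n → ℝ) × (Fin n → ℝ) => H q.1 q.2) := by
  unfold H
  fun_prop

theorem pc_int {n : ℕ} {χ : ℝ → ℂ} {N : ℝ} (hχ : Cls (1 / 8) 8 N 2 χ) {f : (Fin n → ℝ) → ℂ}
    (hf : Integrable f) (r κ : ℝ) (hκ : 0 < κ) (a : Fin n → ℝ) (ha : a ∈ box n) :
    Integrable (fun ξ => OS χ r (κ * H a ξ) * FT f ξ) := by
  have hc : Continuous χ := hχ.1.continuous
  have hF := FT_cont hf
  have hH : Continuous (fun ξ => H a ξ) := H_cont.comp (continuous_const.prodMk continuous_id)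
  apply Continuous.integrable_of_hasCompactSupport
  · unfold OS
    fun_prop
  · refine HasCompactSupport.of_support_subset_isCompact
      (K := Icc (fun _ => -(8 / κ + 1)) (fun _ => 8 / κ + 1)) isCompact_Icc ?_
    intro ξ hξ
    rw [Function.mem_support] at hξ
    have h1 : χ (κ * H a ξ) ≠ 0 := by
      intro h0
      apply hξ
      simp [OS, h0]
    have h2 := (hχ.2.1 _ h1).2
    have h3 : ∀ j, |ξ j| ≤ 8 / κ + 1 := by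
      intro j
      have h4 : a j * ξ j ^ 2 ≤ H a ξ := by
        unfold H
        refine Finset.single_le_sum (f := fun j => a j * ξ j ^ 2) (fun i _ => ?_) (Finset.mem_univ j)
        exact mul_nonneg (le_trans zero_le_one (ha.1 i)) (sq_nonneg _)
      have h5 : ξ j ^ 2 ≤ H a ξ := by
        have := ha.1 j
        simp only at this
        nlinarith [sq_nonneg (ξ j)]
      have h6 : H a ξ ≤ 8 / κ := by
        rw [le_div_iff₀ hκ, mul_comm]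
        exact h2
      have h7 : 0 ≤ 8 / κ := by positivity
      apply abs_le_of_sq_le_sq _ (by linarith)
      nlinarith
    constructor
    · intro j
      exact (abs_le.mp (h3 j)).1
    · intro j
      exact (abs_le.mp (h3 j)).2

theorem pc_meas {n : ℕ} {χ : ℝ → ℂ} {N : ℝ} (hχ : Cls (1 / 8) 8 N 2 χ) {f : (Fin n → ℝ) → ℂ}
    (hf : Integrable f) (σ L : ℝ) :
    Measurable (fun q : ((Fin n → ℝ) × ℝ) × (Fin n → ℝ) => PC χ σ L f q.1.1 q.1.2 q.2) := by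
  have hc : Continuous χ := hχ.1.continuous
  have hF := FT_cont hf
  unfold PC IFT
  have hcont : Continuous (fun q : (((Fin n → ℝ) × ℝ) × (Fin n → ℝ)) × (Fin n → ℝ) =>
      OS χ (σ * q.1.1.2 * L) ((L ^ 2)⁻¹ * H q.1.1.1 q.2) * FT f q.2 *
        cexp (2 * (Real.pi : ℂ) * I * ((∑ j, q.1.2 j * q.2 j : ℝ) : ℂ))) := by
    unfold OS H
    fun_prop
  exact (hcont.stronglyMeasurable.integral_prod_right'
    (ν := (volume : Measure (Fin n → ℝ)))).measurable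

/-! ### the symbol -/

theorem exp_pm (x : ℝ) : ((Real.cos x : ℝ) : ℂ) = (cexp (x * I) + cexp (-(x * I))) / 2 := by
  rw [ofReal_cos, Complex.cos]
  ring_nf

theorem exp_pm' (x : ℝ) : ((Real.sin x : ℝ) : ℂ) = (cexp (x * I) - cexp (-(x * I))) / (2 * I) := by
  rw [ofReal_sin, Complex.sin]
  field_simp
  rw [I_sq]
  ring

theorem os_pm (χ : ℝ → ℂ) (t L y : ℝ) :
    OS χ (1 * t * L) y = χ y * cexp (((2 * Real.pi * t * (L * Real.sqrt y) : ℝ) : ℂ) * I) ∧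
    OS χ (-1 * t * L) y = χ y * cexp (-(((2 * Real.pi * t * (L * Real.sqrt y) : ℝ) : ℂ) * I)) := by
  unfold OS
  constructor
  · congr 2
    push_cast
    ring
  · congr 2
    push_cast
    ring

theorem sym_cos (χ : ℝ → ℂ) (t L y : ℝ) (hL : 0 < L) :
    χ y * ((Real.cos (2 * Real.pi * t * Real.sqrt (L ^ 2 * y)) : ℝ) : ℂ) =
      (OS χ (1 * t * L) y + OS χ (-1 * t * L) y) / 2 := by
  obtain ⟨h1, h2⟩ := os_pm χ t L y
  rw [Real.sqrt_mul (by positivity), Real.sqrt_sq hL.le, h1, h2, exp_pm]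
  ring

theorem sym_sin (χ χ' : ℝ → ℂ) (t L y : ℝ) (hL : 0 < L) (h0 : χ y ≠ 0 → 1 / 4 ≤ y)
    (hχ' : χ' y = χ y / ((2 * Real.pi * Real.sqrt y : ℝ) : ℂ)) :
    χ y * ((sn t (L ^ 2 * y) : ℝ) : ℂ) =
      ((L⁻¹ : ℝ) : ℂ) * ((OS χ' (1 * t * L) y - OS χ' (-1 * t * L) y) / (2 * I)) := by
  obtain ⟨h1, h2⟩ := os_pm χ' t L y
  by_cases hz : χ y = 0
  · rw [h1, h2, hχ', hz]
    simp
  · have hy4 := h0 hz
    have hy0 : 0 < y := by linarith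
    have hne : L ^ 2 * y ≠ 0 := by positivity
    have hs : Real.sqrt (L ^ 2 * y) = L * Real.sqrt y := by
      rw [Real.sqrt_mul (by positivity), Real.sqrt_sq hL.le]
    have hsy : 0 < Real.sqrt y := Real.sqrt_pos.mpr hy0
    rw [h1, h2, sn, if_neg hne, hs, ofReal_div, exp_pm', hχ']
    have e1 : ((2 * Real.pi * Real.sqrt y : ℝ) : ℂ) ≠ 0 := by
      rw [Ne, ofReal_eq_zero]
      positivity
    have e2 : (L : ℂ) ≠ 0 := by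
      rw [Ne, ofReal_eq_zero]
      exact hL.ne'
    have e3 : ((2 * Real.pi * (L * Real.sqrt y) : ℝ) : ℂ) =
        (L : ℂ) * ((2 * Real.pi * Real.sqrt y : ℝ) : ℂ) := by
      push_cast
      ring
    rw [e3, ofReal_inv]
    have hI : (I : ℂ) ≠ 0 := I_ne_zero
    field_simp

/-! ### inequalities for sums of four terms -/

theorem sum4_rpow (q : ℝ) (hq : 0 ≤ q) (a b c d : ℝ≥0∞) :
    (a + b + c + d) ^ q ≤ 4 ^ q * (a ^ q + b ^ q + c ^ q + d ^ q) := by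
  set m := max (max a b) (max c d) with hm
  have ha : a ≤ m := le_trans (le_max_left _ _) (le_max_left _ _)
  have hb : b ≤ m := le_trans (le_max_right _ _) (le_max_left _ _)
  have hc : c ≤ m := le_trans (le_max_left _ _) (le_max_right _ _)
  have hd : d ≤ m := le_trans (le_max_right _ _) (le_max_right _ _)
  have h1 : a + b + c + d ≤ 4 * m := by
    calc a + b + c + d ≤ m + m + m + m := by gcongr
      _ = 4 * m := by ring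
  have h2 : m ^ q ≤ a ^ q + b ^ q + c ^ q + d ^ q := by
    rcases max_choice (max a b) (max c d) with h | h
    · rcases max_choice a b with h' | h'
      · have : m = a := by rw [hm, h, h']
        rw [this]
        calc a ^ q ≤ a ^ q + (b ^ q + c ^ q + d ^ q) := le_self_add
          _ = _ := by ring
      · have : m = b := by rw [hm, h, h']
        rw [this]
        calc b ^ q ≤ b ^ q + (a ^ q + c ^ q + d ^ q) := le_self_add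
          _ = _ := by ring
    · rcases max_choice c d with h' | h'
      · have : m = c := by rw [hm, h, h']
        rw [this]
        calc c ^ q ≤ c ^ q + (a ^ q + b ^ q + d ^ q) := le_self_add
          _ = _ := by ring
      · have : m = d := by rw [hm, h, h']
        rw [this]
        calc d ^ q ≤ d ^ q + (a ^ q + b ^ q + c ^ q) := le_self_add
          _ = _ := by ring
  calc (a + b + c + d) ^ q ≤ (4 * m) ^ q := ENNReal.rpow_le_rpow h1 hq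
    _ = 4 ^ q * m ^ q := ENNReal.mul_rpow_of_nonneg _ _ hq
    _ ≤ _ := by gcongr

/-- four terms under a triple integral -/
theorem lint3 {A T X : Type} [MeasurableSpace A] [MeasurableSpace T] [MeasurableSpace X]
    (μ : Measure A) (ν : Measure T) (ρ : Measure X) [SFinite μ] [SFinite ν] [SFinite ρ]
    (e1 e2 e3 e4 : (A × T) × X → ℝ≥0∞) (h1 : Measurable e1) (h2 : Measurable e2)
    (h3 : Measurable e3) (h4 : Measurable e4) (c : ℝ≥0∞) (hc : c ≠ ⊤) :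
    ∫⁻ a, ∫⁻ t, ∫⁻ x, c * (e1 ((a, t), x) + e2 ((a, t), x) + e3 ((a, t), x) + e4 ((a, t), x))
        ∂ρ ∂ν ∂μ =
      c * ((∫⁻ a, ∫⁻ t, ∫⁻ x, e1 ((a, t), x) ∂ρ ∂ν ∂μ) + (∫⁻ a, ∫⁻ t, ∫⁻ x, e2 ((a, t), x) ∂ρ ∂ν ∂μ)
        + (∫⁻ a, ∫⁻ t, ∫⁻ x, e3 ((a, t), x) ∂ρ ∂ν ∂μ) +
        (∫⁻ a, ∫⁻ t, ∫⁻ x, e4 ((a, t), x) ∂ρ ∂ν ∂μ)) := by
  have key : ∀ e : (A × T) × X → ℝ≥0∞, Measurable e →
      ∫⁻ a, ∫⁻ t, ∫⁻ x, e ((a, t), x) ∂ρ ∂ν ∂μ = ∫⁻ z, e z ∂((μ.prod ν).prod ρ) := by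
    intro e he
    rw [lintegral_prod _ he.aemeasurable]
    rw [lintegral_prod (μ := μ) (ν := ν) (fun q : A × T => ∫⁻ x, e (q, x) ∂ρ)
      (Measurable.lintegral_prod_right' he).aemeasurable]
  rw [key e1 h1, key e2 h2, key e3 h3, key e4 h4,
    key (fun z => c * (e1 z + e2 z + e3 z + e4 z)) (by fun_prop)]
  rw [lintegral_const_mul' _ _ hc, lintegral_add_left (by fun_prop), lintegral_add_left (by fun_prop),
    lintegral_add_left (by fun_prop)]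

/-- four terms under a double integral -/
theorem lint2 {A X : Type} [MeasurableSpace A] [MeasurableSpace X]
    (μ : Measure A) (ρ : Measure X) [SFinite μ] [SFinite ρ]
    (e1 e2 e3 e4 : A × X → ℝ≥0∞) (h1 : Measurable e1) (h2 : Measurable e2)
    (h3 : Measurable e3) (h4 : Measurable e4) (c : ℝ≥0∞) (hc : c ≠ ⊤) :
    ∫⁻ a, ∫⁻ x, c * (e1 (a, x) + e2 (a, x) + e3 (a, x) + e4 (a, x)) ∂ρ ∂μ =
      c * ((∫⁻ a, ∫⁻ x, e1 (a, x) ∂ρ ∂μ) + (∫⁻ a, ∫⁻ x, e2 (a, x) ∂ρ ∂μ)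
        + (∫⁻ a, ∫⁻ x, e3 (a, x) ∂ρ ∂μ) + (∫⁻ a, ∫⁻ x, e4 (a, x) ∂ρ ∂μ)) := by
  have key : ∀ e : A × X → ℝ≥0∞, Measurable e →
      ∫⁻ a, ∫⁻ x, e (a, x) ∂ρ ∂μ = ∫⁻ z, e z ∂(μ.prod ρ) := by
    intro e he
    rw [lintegral_prod _ he.aemeasurable]
  rw [key e1 h1, key e2 h2, key e3 h3, key e4 h4,
    key (fun z => c * (e1 z + e2 z + e3 z + e4 z)) (by fun_prop)]
  rw [lintegral_const_mul' _ _ hc, lintegral_add_left (by fun_prop), lintegral_add_left (by fun_prop),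
    lintegral_add_left (by fun_prop)]

/-! ### the data -/

theorem H_box {n : ℕ} {a ξ : Fin n → ℝ} (ha : a ∈ box n) : Q ξ ≤ H a ξ ∧ H a ξ ≤ 2 * Q ξ := by
  unfold Q H
  constructor
  · refine Finset.sum_le_sum (fun j _ => ?_)
    have h1 : (1 : ℝ) ≤ a j := ha.1 j
    nlinarith [sq_nonneg (ξ j)]
  · rw [Finset.mul_sum]
    refine Finset.sum_le_sum (fun j _ => ?_)
    have h1 : a j ≤ (2 : ℝ) := ha.2 j
    nlinarith [sq_nonneg (ξ j)]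

theorem Q_nonneg {n : ℕ} (ξ : Fin n → ℝ) : 0 ≤ Q ξ := by
  unfold Q
  exact Finset.sum_nonneg (fun j _ => sq_nonneg _)

theorem data (hmul : S_MUL) (hpu : S_PU2) (hsch : S_SCH) (n : ℕ) (r : ℝ) : ∃ D : ℝ, 0 < D ∧
    ∀ κ : ℝ, 0 < κ → κ ≤ 1 → ∀ u : SchwartzMap (Fin n → ℝ) ℂ, ∃ f : (Fin n → ℝ) → ℂ,
      Measurable f ∧ Integrable f ∧
      (∀ ξ, 1 / 8 ≤ κ * Q ξ → κ * Q ξ ≤ 4 → FT f ξ = ((κ ^ (-(r / 2)) : ℝ) : ℂ) * FT (⇑u) ξ) ∧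
      ∀ p : ℝ, 1 ≤ p → ∫⁻ x, ‖f x‖ₑ ^ p ≤ ENNReal.ofReal (D ^ p) * ∫⁻ x, ‖J r (⇑u) x‖ₑ ^ p := by
  obtain ⟨C, hC, hmul⟩ := hmul n
  obtain ⟨N, hN, _, hpu⟩ := hpu (n + 2) (-(r / 2))
  refine ⟨C * N, by positivity, ?_⟩
  intro κ hκ hκ1 u
  obtain ⟨Θ, hΘ, hΘ2⟩ := hpu κ hκ hκ1
  obtain ⟨hJc, hJi, _, _, _, _, hJ⟩ := hsch n u r
  obtain ⟨f, hf1, hf2, hf3, hf4⟩ := hmul N hN Θ hΘ κ hκ (J r u) hJc.measurable hJi
  refine ⟨f, hf1, hf2, ?_, hf4⟩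
  intro ξ h1 h2
  rw [hf3 ξ, hΘ2 _ h1 h2, hJ ξ, ← mul_assoc, ← ofReal_mul]
  congr 2
  have hQ := Q_nonneg ξ
  have hpos : 0 < 1 + 4 * Real.pi ^ 2 * Q ξ := by positivity
  have e : κ + 4 * Real.pi ^ 2 * (κ * Q ξ) = κ * (1 + 4 * Real.pi ^ 2 * Q ξ) := by ring
  rw [e, Real.mul_rpow hκ.le hpos.le, mul_assoc, ← Real.rpow_add hpos]
  simp

theorem comb {X : Type} [MeasurableSpace X] (μ : Measure X) (g1 g2 g3 g4 : X → ℂ) (c d e : ℂ)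
    (h1 : Integrable g1 μ) (h2 : Integrable g2 μ) (h3 : Integrable g3 μ) (h4 : Integrable g4 μ) :
    c * ((∫ x, g1 x ∂μ) / d + (∫ x, g2 x ∂μ) / d + (∫ x, g3 x ∂μ) / e - (∫ x, g4 x ∂μ) / e) =
      ∫ x, c * (g1 x / d + g2 x / d + g3 x / e - g4 x / e) ∂μ := by
  have a1 : Integrable (fun x => g1 x / d) μ := h1.div_const _
  have a2 : Integrable (fun x => g2 x / d) μ := h2.div_const _
  have a3 : Integrable (fun x => g3 x / e) μ := h3.div_const _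
  have a4 : Integrable (fun x => g4 x / e) μ := h4.div_const _
  have a12 : Integrable (fun x => g1 x / d + g2 x / d) μ := a1.add a2
  have a123 : Integrable (fun x => g1 x / d + g2 x / d + g3 x / e) μ := a12.add a3
  rw [integral_const_mul, integral_sub a123 a4, integral_add a12 a3, integral_add a1 a2,
    integral_div, integral_div, integral_div, integral_div]

theorem wave_eq {ψ₀ ψ ψ' : ℝ → ℂ} {N : ℝ} (hP : PU ψ₀ ψ ψ' N) {n : ℕ} (s : ℝ) (k : ℕ)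
    (u₀ u₁ f0 f1 : (Fin n → ℝ) → ℂ) (hf0 : Integrable f0) (hf1 : Integrable f1)
    (h0 : ∀ ξ, 1 / 8 ≤ ((4 : ℝ) ^ k)⁻¹ * Q ξ → ((4 : ℝ) ^ k)⁻¹ * Q ξ ≤ 4 →
      FT f0 ξ = (((((4 : ℝ) ^ k)⁻¹) ^ (-(s / 2)) : ℝ) : ℂ) * FT u₀ ξ)
    (h1 : ∀ ξ, 1 / 8 ≤ ((4 : ℝ) ^ k)⁻¹ * Q ξ → ((4 : ℝ) ^ k)⁻¹ * Q ξ ≤ 4 →
      FT f1 ξ = (((((4 : ℝ) ^ k)⁻¹) ^ (-((s - 1) / 2)) : ℝ) : ℂ) * FT u₁ ξ)
    (a : Fin n → ℝ) (ha : a ∈ box n) (t : ℝ) (x : Fin n → ℝ) :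
    Wm (fun y => ψ (((4 : ℝ) ^ k)⁻¹ * y)) u₀ u₁ a t x =
      (((((4 : ℝ) ^ k)⁻¹) ^ (s / 2) : ℝ) : ℂ) *
        (PC ψ 1 ((2 : ℝ) ^ k) f0 a t x / 2 + PC ψ (-1) ((2 : ℝ) ^ k) f0 a t x / 2 +
          PC ψ' 1 ((2 : ℝ) ^ k) f1 a t x / (2 * I) - PC ψ' (-1) ((2 : ℝ) ^ k) f1 a t x / (2 * I)) := by
  obtain ⟨hN, _, _, _, _, hψ, hψs, _, hψ', hψψ⟩ := hP
  set L : ℝ := (2 : ℝ) ^ k with hL
  have hL0 : 0 < L := by positivity
  have hL2 : ((4 : ℝ) ^ k)⁻¹ = (L ^ 2)⁻¹ := by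
    rw [hL, ← pow_mul, mul_comm k 2, pow_mul]
    norm_num
  rw [hL2] at h0 h1 ⊢
  set κ : ℝ := (L ^ 2)⁻¹ with hκ
  have hκ0 : 0 < κ := by positivity
  have i1 := ift_int (pc_int hψ hf0 (1 * t * L) κ hκ0 a ha) x
  have i2 := ift_int (pc_int hψ hf0 (-1 * t * L) κ hκ0 a ha) x
  have i3 := ift_int (pc_int hψ' hf1 (1 * t * L) κ hκ0 a ha) x
  have i4 := ift_int (pc_int hψ' hf1 (-1 * t * L) κ hκ0 a ha) x
  have hcomb := comb volume _ _ _ _ (((κ ^ (s / 2)) : ℝ) : ℂ) 2 (2 * I) i1 i2 i3 i4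
  unfold PC Wm IFT
  refine Eq.trans ?_ hcomb.symm
  refine integral_congr_ae (Filter.Eventually.of_forall (fun ξ => ?_))
  show ψ (κ * H a ξ) * _ * _ = _
  beta_reduce
  have hH : H a ξ = L ^ 2 * (κ * H a ξ) := by
    rw [hκ]
    field_simp
  set y := κ * H a ξ with hy
  obtain ⟨hb1, hb2⟩ := H_box (ξ := ξ) ha
  have hQ := Q_nonneg ξ
  have hy0 : 0 ≤ y := mul_nonneg hκ0.le (le_trans hQ hb1)
  have c1 := sym_cos ψ t L y hL0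
  have c2 := sym_sin ψ ψ' t L y hL0 (fun h => (hψs y h).1) (hψψ y hy0)
  by_cases hz : ψ y = 0
  · have z1 : ∀ r, OS ψ r y = 0 := by
      intro r
      unfold OS
      rw [hz, zero_mul]
    have z2 : ∀ r, OS ψ' r y = 0 := by
      intro r
      unfold OS
      rw [hψψ y hy0, hz, zero_div, zero_mul]
    simp only [z1, z2, hz, zero_mul, zero_div, add_zero, sub_zero, mul_zero]
  · obtain ⟨q1, q2⟩ := hψs y hz
    have hQ1 : 1 / 8 ≤ κ * Q ξ := by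
      have : y ≤ κ * (2 * Q ξ) := mul_le_mul_of_nonneg_left hb2 hκ0.le
      linarith
    have hQ2 : κ * Q ξ ≤ 4 := by
      have : κ * Q ξ ≤ y := mul_le_mul_of_nonneg_left hb1 hκ0.le
      linarith
    rw [h0 ξ hQ1 hQ2, h1 ξ hQ1 hQ2]
    have hc : Real.cos (2 * Real.pi * t * Real.sqrt (H a ξ)) =
        Real.cos (2 * Real.pi * t * Real.sqrt (L ^ 2 * y)) := by rw [← hH]
    have hsn : sn t (H a ξ) = sn t (L ^ 2 * y) := by rw [← hH]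
    rw [hc, hsn]
    have e1 : (((κ ^ (s / 2)) : ℝ) : ℂ) * ((κ ^ (-(s / 2)) : ℝ) : ℂ) = 1 := by
      rw [← ofReal_mul, ← Real.rpow_add hκ0]
      simp
    have e2 : (((κ ^ (s / 2)) : ℝ) : ℂ) * ((κ ^ (-((s - 1) / 2)) : ℝ) : ℂ) = ((L⁻¹ : ℝ) : ℂ) := by
      rw [← ofReal_mul, ← Real.rpow_add hκ0]
      congr 1
      have : s / 2 + -((s - 1) / 2) = 1 / 2 := by ring
      rw [this, ← Real.sqrt_eq_rpow, hκ, Real.sqrt_inv, Real.sqrt_sq hL0.le]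
    calc ψ y * (((Real.cos (2 * Real.pi * t * Real.sqrt (L ^ 2 * y)) : ℝ) : ℂ) * FT u₀ ξ +
          ((sn t (L ^ 2 * y) : ℝ) : ℂ) * FT u₁ ξ) *
          cexp (2 * (Real.pi : ℂ) * I * ((∑ j, x j * ξ j : ℝ) : ℂ))
        = ((ψ y * ((Real.cos (2 * Real.pi * t * Real.sqrt (L ^ 2 * y)) : ℝ) : ℂ)) * FT u₀ ξ +
          (ψ y * ((sn t (L ^ 2 * y) : ℝ) : ℂ)) * FT u₁ ξ) *
          cexp (2 * (Real.pi : ℂ) * I * ((∑ j, x j * ξ j : ℝ) : ℂ)) := by ring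
      _ = (((OS ψ (1 * t * L) y + OS ψ (-1 * t * L) y) / 2) *
            (((((κ ^ (s / 2)) : ℝ) : ℂ) * ((κ ^ (-(s / 2)) : ℝ) : ℂ)) * FT u₀ ξ) +
          (((((κ ^ (s / 2)) : ℝ) : ℂ) * ((κ ^ (-((s - 1) / 2)) : ℝ) : ℂ)) *
            ((OS ψ' (1 * t * L) y - OS ψ' (-1 * t * L) y) / (2 * I))) * FT u₁ ξ) *
          cexp (2 * (Real.pi : ℂ) * I * ((∑ j, x j * ξ j : ℝ) : ℂ)) := by
          rw [c1, c2, e1, e2, one_mul (FT u₀ ξ)]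
      _ = _ := by ring

theorem norm_le {a b c d w : ℂ} {κ : ℝ} (hκ : 0 ≤ κ)
    (h : w = (κ : ℂ) * (a / 2 + b / 2 + c / (2 * I) - d / (2 * I))) :
    ‖w‖ₑ ≤ ENNReal.ofReal κ * (‖a‖ₑ + ‖b‖ₑ + ‖c‖ₑ + ‖d‖ₑ) := by
  have h2 : ∀ z : ℂ, ‖z / 2‖ₑ ≤ ‖z‖ₑ := by
    intro z
    rw [← ofReal_norm, ← ofReal_norm]
    apply ENNReal.ofReal_le_ofReal
    rw [norm_div]
    have : ‖(2 : ℂ)‖ = 2 := by simp
    rw [this]
    have := norm_nonneg z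
    linarith
  have h3 : ∀ z : ℂ, ‖z / (2 * I)‖ₑ ≤ ‖z‖ₑ := by
    intro z
    rw [← ofReal_norm, ← ofReal_norm]
    apply ENNReal.ofReal_le_ofReal
    rw [norm_div]
    have : ‖(2 * I : ℂ)‖ = 2 := by simp
    rw [this]
    have := norm_nonneg z
    linarith
  rw [h, enorm_mul]
  have hk : ‖(κ : ℂ)‖ₑ = ENNReal.ofReal κ := by
    rw [← ofReal_norm, Complex.norm_real, Real.norm_of_nonneg hκ]
  rw [hk]
  gcongr
  calc ‖a / 2 + b / 2 + c / (2 * I) - d / (2 * I)‖ₑ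
      ≤ ‖a / 2 + b / 2 + c / (2 * I)‖ₑ + ‖d / (2 * I)‖ₑ := enorm_sub_le
    _ ≤ (‖a / 2 + b / 2‖ₑ + ‖c / (2 * I)‖ₑ) + ‖d / (2 * I)‖ₑ := by
        gcongr
        exact enorm_add_le _ _
    _ ≤ ((‖a / 2‖ₑ + ‖b / 2‖ₑ) + ‖c / (2 * I)‖ₑ) + ‖d / (2 * I)‖ₑ := by
        gcongr
        exact enorm_add_le _ _
    _ ≤ _ := by
        gcongr
        · exact h2 a
        · exact h2 b
        · exact h3 c
        · exact h3 d

theorem fin_bd (K b d0 d1 : ℝ) (hK : 0 ≤ K) (hb : 0 ≤ b) (h0 : 0 ≤ d0) (h1 : 0 ≤ d1)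
    (Y0 Y1 : ℝ≥0∞) :
    ENNReal.ofReal K * (ENNReal.ofReal b * (ENNReal.ofReal d0 * Y0) +
        ENNReal.ofReal b * (ENNReal.ofReal d0 * Y0) + ENNReal.ofReal b * (ENNReal.ofReal d1 * Y1) +
        ENNReal.ofReal b * (ENNReal.ofReal d1 * Y1)) ≤
      ENNReal.ofReal (2 * K * b * (d0 + d1)) * (Y0 + Y1) := by
  have e0 : ENNReal.ofReal K * (ENNReal.ofReal b * ENNReal.ofReal d0) * 2 ≤
      ENNReal.ofReal (2 * K * b * (d0 + d1)) := by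
    have : (2 : ℝ≥0∞) = ENNReal.ofReal 2 := by simp
    rw [this, ← ENNReal.ofReal_mul hb, ← ENNReal.ofReal_mul hK, ← ENNReal.ofReal_mul (by positivity)]
    apply ENNReal.ofReal_le_ofReal
    have : 0 ≤ K * b * d1 := by positivity
    nlinarith
  have e1 : ENNReal.ofReal K * (ENNReal.ofReal b * ENNReal.ofReal d1) * 2 ≤
      ENNReal.ofReal (2 * K * b * (d0 + d1)) := by
    have : (2 : ℝ≥0∞) = ENNReal.ofReal 2 := by simp
    rw [this, ← ENNReal.ofReal_mul hb, ← ENNReal.ofReal_mul hK, ← ENNReal.ofReal_mul (by positivity)]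
    apply ENNReal.ofReal_le_ofReal
    have : 0 ≤ K * b * d0 := by positivity
    nlinarith
  calc _ = (ENNReal.ofReal K * (ENNReal.ofReal b * ENNReal.ofReal d0) * 2) * Y0 +
        (ENNReal.ofReal K * (ENNReal.ofReal b * ENNReal.ofReal d1) * 2) * Y1 := by ring
    _ ≤ ENNReal.ofReal (2 * K * b * (d0 + d1)) * Y0 +
        ENNReal.ofReal (2 * K * b * (d0 + d1)) * Y1 := by gcongr
    _ = _ := by ring

theorem c_rpow (x q : ℝ) (hx : 0 < x) (hq : 0 ≤ q) :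
    (ENNReal.ofReal x) ^ q * 4 ^ q = ENNReal.ofReal ((4 * x) ^ q) := by
  have h4 : (4 : ℝ≥0∞) = ENNReal.ofReal 4 := by simp
  rw [← ENNReal.mul_rpow_of_nonneg _ _ hq, h4, ← ENNReal.ofReal_mul hx.le,
    ENNReal.ofReal_rpow_of_pos (by positivity), mul_comm x 4]

theorem pt_rpow (x q : ℝ) (hx : 0 < x) (hq : 0 ≤ q) (w a b c d : ℝ≥0∞)
    (h : w ≤ ENNReal.ofReal x * (a + b + c + d)) :
    w ^ q ≤ ENNReal.ofReal ((4 * x) ^ q) * (a ^ q + b ^ q + c ^ q + d ^ q) := by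
  calc w ^ q ≤ (ENNReal.ofReal x * (a + b + c + d)) ^ q := ENNReal.rpow_le_rpow h hq
    _ = ENNReal.ofReal x ^ q * (a + b + c + d) ^ q := ENNReal.mul_rpow_of_nonneg _ _ hq
    _ ≤ ENNReal.ofReal x ^ q * (4 ^ q * (a ^ q + b ^ q + c ^ q + d ^ q)) := by
        gcongr
        exact sum4_rpow q hq a b c d
    _ = _ := by rw [← c_rpow x q hx hq]; ring

theorem scale_eq (k : ℕ) (s : ℝ) :
    (((4 : ℝ) ^ k)⁻¹) ^ (s / 2) = (2 : ℝ) ^ (-((k : ℝ) * s)) := by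
  have h : ((4 : ℝ) ^ k)⁻¹ = (2 : ℝ) ^ (-(2 * (k : ℝ))) := by
    rw [Real.rpow_neg (by norm_num), Real.rpow_mul (by norm_num)]
    norm_num
  rw [h, ← Real.rpow_mul (by norm_num)]
  congr 1
  ring

theorem log_bd (k n : ℕ) : (1 + Real.log ((2 : ℝ) ^ k)) ^ n ≤ (1 + (k : ℝ)) ^ n := by
  have h2 : Real.log 2 ≤ 1 := by
    have := Real.log_two_lt_d9
    linarith
  have h0 : 0 ≤ Real.log 2 := Real.log_nonneg (by norm_num)
  have hk : (0 : ℝ) ≤ k := Nat.cast_nonneg k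
  rw [Real.log_pow]
  apply pow_le_pow_left₀
  · positivity
  · nlinarith

theorem sq_meas {n : ℕ} (G : ((Fin n → ℝ) × ℝ) × (Fin n → ℝ) → ℂ) (hG : Measurable G) :
    Measurable (fun q : (Fin n → ℝ) × (Fin n → ℝ) =>
      ∫⁻ t in Icc (1 : ℝ) 2, ‖G ((q.1, t), q.2)‖ₑ ^ (2 : ℝ)) := by
  have h1 : Measurable (fun z : ((Fin n → ℝ) × (Fin n → ℝ)) × ℝ =>
      (((z.1.1, z.2), z.1.2) : ((Fin n → ℝ) × ℝ) × (Fin n → ℝ))) := by fun_prop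
  have h2 : Measurable (fun z : ((Fin n → ℝ) × (Fin n → ℝ)) × ℝ =>
      ‖G ((z.1.1, z.2), z.1.2)‖ₑ ^ (2 : ℝ)) := ((hG.comp h1).enorm).pow_const _
  exact Measurable.lintegral_prod_right' h2

theorem sec_meas {n : ℕ} (G : ((Fin n → ℝ) × ℝ) × (Fin n → ℝ) → ℂ) (hG : Measurable G)
    (a x : Fin n → ℝ) : Measurable (fun t : ℝ => ‖G ((a, t), x)‖ₑ ^ (2 : ℝ)) := by
  have h1 : Measurable (fun t : ℝ => (((a, t), x) : ((Fin n → ℝ) × ℝ) × (Fin n → ℝ))) := by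
    fun_prop
  exact ((hG.comp h1).enorm).pow_const _

theorem lint1 {T : Type} [MeasurableSpace T] (ν : Measure T) (W g1 g2 g3 g4 : T → ℝ≥0∞)
    (h1 : Measurable g1) (h2 : Measurable g2) (h3 : Measurable g3) (c : ℝ≥0∞) (hc : c ≠ ⊤)
    (h : ∀ t, W t ≤ c * (g1 t + g2 t + g3 t + g4 t)) :
    ∫⁻ t, W t ∂ν ≤ c * ((∫⁻ t, g1 t ∂ν) + (∫⁻ t, g2 t ∂ν) + (∫⁻ t, g3 t ∂ν) + (∫⁻ t, g4 t ∂ν)) := by
  have a12 : Measurable (fun t => g1 t + g2 t) := h1.add h2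
  have a123 : Measurable (fun t => g1 t + g2 t + g3 t) := a12.add h3
  rw [← lintegral_add_left h1, ← lintegral_add_left a12, ← lintegral_add_left a123,
    ← lintegral_const_mul' _ _ hc]
  exact lintegral_mono h

theorem chain4 (Z K b A1 A2 A3 A4 F0 F1 d0 d1 Y0 Y1 : ℝ≥0∞) (hZ : Z ≤ K * (A1 + A2 + A3 + A4))
    (h1 : A1 ≤ b * F0) (h2 : A2 ≤ b * F0) (h3 : A3 ≤ b * F1) (h4 : A4 ≤ b * F1)
    (h5 : F0 ≤ d0 * Y0) (h6 : F1 ≤ d1 * Y1) :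
    Z ≤ K * (b * (d0 * Y0) + b * (d0 * Y0) + b * (d1 * Y1) + b * (d1 * Y1)) := by
  have g0 : b * F0 ≤ b * (d0 * Y0) := by gcongr
  have g1 : b * F1 ≤ b * (d1 * Y1) := by gcongr
  refine le_trans hZ ?_
  have e1 := le_trans h1 g0
  have e2 := le_trans h2 g0
  have e3 := le_trans h3 g1
  have e4 := le_trans h4 g1
  gcongr

theorem num1 (x CL CM Np Lp lg kk D p4 p8 : ℝ) (hx : 0 ≤ x) (hL : 0 ≤ CL) (hM : 0 ≤ CM)
    (hN : 0 ≤ Np) (hLp : 0 ≤ Lp) (hlg : 0 ≤ lg) (hk : lg ≤ kk) (hD : 0 ≤ D) (h4 : 0 ≤ p4)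
    (h48 : p4 ≤ p8) :
    2 * (p4 * x) * (CL * Np * (Lp * lg)) * D ≤ 2 * p8 * (CL + CM) * Np * D * ((x * Lp) * kk) := by
  have h1 : p4 * (CL * lg) ≤ p8 * ((CL + CM) * kk) := by
    apply mul_le_mul h48 _ (by positivity) (by linarith)
    apply mul_le_mul (by linarith) hk hlg (by linarith)
  have h2 : 0 ≤ 2 * x * Np * Lp * D := by positivity
  calc 2 * (p4 * x) * (CL * Np * (Lp * lg)) * D = (2 * x * Np * Lp * D) * (p4 * (CL * lg)) := by ring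
    _ ≤ (2 * x * Np * Lp * D) * (p8 * ((CL + CM) * kk)) := mul_le_mul_of_nonneg_left h1 h2
    _ = _ := by ring

theorem high : S_LOC → S_LOC2 → S_MUL → S_PU2 → S_SCH → S_HIGH := by
  intro hloc hloc2 hmul hpu hsch ψ₀ ψ ψ' N hP n p s hp2 hp4
  obtain ⟨CL, hCL, hloc⟩ := hloc n p hp2 hp4
  obtain ⟨CM, hCM, hloc2⟩ := hloc2 n p hp2 hp4
  obtain ⟨D0, hD0, hd0⟩ := data hmul hpu hsch n s
  obtain ⟨D1, hD1, hd1⟩ := data hmul hpu hsch n (s - 1)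
  have hP' := hP
  obtain ⟨hN, _, _, _, _, hψ, hψs, _, hψ', hψψ⟩ := hP'
  have hNp : 0 < N ^ p := Real.rpow_pos_of_pos hN p
  have hD0p : 0 < D0 ^ p := Real.rpow_pos_of_pos hD0 p
  have hD1p : 0 < D1 ^ p := Real.rpow_pos_of_pos hD1 p
  have hp0 : 0 ≤ p := by linarith
  refine ⟨2 * 8 ^ p * (CL + CM) * N ^ p * (D0 ^ p + D1 ^ p), by positivity, ?_⟩
  intro u₀ u₁ k hk
  have hκ0 : 0 < ((4 : ℝ) ^ k)⁻¹ := by positivity
  have hκ1 : ((4 : ℝ) ^ k)⁻¹ ≤ 1 := by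
    apply inv_le_one_of_one_le₀
    exact one_le_pow₀ (by norm_num)
  obtain ⟨f0, m0, i0, q0, b0⟩ := hd0 _ hκ0 hκ1 u₀
  obtain ⟨f1, m1, i1, q1, b1⟩ := hd1 _ hκ0 hκ1 u₁
  have hx : 0 < (((4 : ℝ) ^ k)⁻¹) ^ (s / 2) := Real.rpow_pos_of_pos hκ0 _
  have hpt : ∀ a ∈ box n, ∀ t x, ‖Wm (fun y => ψ (((4 : ℝ) ^ k)⁻¹ * y)) (⇑u₀) (⇑u₁) a t x‖ₑ ≤
      ENNReal.ofReal ((((4 : ℝ) ^ k)⁻¹) ^ (s / 2)) *
        (‖PC ψ 1 ((2 : ℝ) ^ k) f0 a t x‖ₑ + ‖PC ψ (-1) ((2 : ℝ) ^ k) f0 a t x‖ₑ +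
          ‖PC ψ' 1 ((2 : ℝ) ^ k) f1 a t x‖ₑ + ‖PC ψ' (-1) ((2 : ℝ) ^ k) f1 a t x‖ₑ) :=
    fun a ha t x => norm_le hx.le (wave_eq hP s k _ _ f0 f1 i0 i1 q0 q1 a ha t x)
  have hxe := scale_eq k s
  set x0 : ℝ := (((4 : ℝ) ^ k)⁻¹) ^ (s / 2) with hx0
  have hL1 : 1 ≤ (2 : ℝ) ^ k := one_le_pow₀ (by norm_num)
  have hlog := log_bd k n
  have hlog0 : 0 ≤ Real.log ((2 : ℝ) ^ k) := Real.log_nonneg hL1
  have M1 := pc_meas hψ i0 1 ((2 : ℝ) ^ k)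
  have M2 := pc_meas hψ i0 (-1) ((2 : ℝ) ^ k)
  have M3 := pc_meas hψ' i1 1 ((2 : ℝ) ^ k)
  have M4 := pc_meas hψ' i1 (-1) ((2 : ℝ) ^ k)
  have B1 := hloc _ hL1 N hN ψ hψ 1 (Or.inl rfl) f0 m0 i0
  have B2 := hloc _ hL1 N hN ψ hψ (-1) (Or.inr rfl) f0 m0 i0
  have B3 := hloc _ hL1 N hN ψ' hψ' 1 (Or.inl rfl) f1 m1 i1
  have B4 := hloc _ hL1 N hN ψ' hψ' (-1) (Or.inr rfl) f1 m1 i1
  have E1 := hloc2 _ hL1 N hN ψ hψ 1 (Or.inl rfl) f0 m0 i0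
  have E2 := hloc2 _ hL1 N hN ψ hψ (-1) (Or.inr rfl) f0 m0 i0
  have E3 := hloc2 _ hL1 N hN ψ' hψ' 1 (Or.inl rfl) f1 m1 i1
  have E4 := hloc2 _ hL1 N hN ψ' hψ' (-1) (Or.inr rfl) f1 m1 i1
  have b0p := b0 p (by linarith)
  have b1p := b1 p (by linarith)
  set Y0 := ∫⁻ x, ‖J s (⇑u₀) x‖ₑ ^ p with hY0
  set Y1 := ∫⁻ x, ‖J (s - 1) (⇑u₁) x‖ₑ ^ p with hY1
  have hDN : DN p s (⇑u₀) (⇑u₁) = Y0 + Y1 := rfl
  have hbox : MeasurableSet (box n) := measurableSet_Icc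
  constructor
  · -- the first claim
    set b : ℝ := CL * N ^ p * (((2 : ℝ) ^ k) ^ (p / 2 - 1) * (1 + Real.log ((2 : ℝ) ^ k)) ^ n) with hb
    have hb0 : 0 ≤ b := by positivity
    have step1 : ∫⁻ a in box n, ∫⁻ t in Icc (1 : ℝ) 2, ∫⁻ x,
        ‖Wm (fun y => ψ (((4 : ℝ) ^ k)⁻¹ * y)) (⇑u₀) (⇑u₁) a t x‖ₑ ^ p ≤
        ∫⁻ a in box n, ∫⁻ t in Icc (1 : ℝ) 2, ∫⁻ x, ENNReal.ofReal ((4 * x0) ^ p) *
          (‖PC ψ 1 ((2 : ℝ) ^ k) f0 a t x‖ₑ ^ p + ‖PC ψ (-1) ((2 : ℝ) ^ k) f0 a t x‖ₑ ^ p +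
            ‖PC ψ' 1 ((2 : ℝ) ^ k) f1 a t x‖ₑ ^ p + ‖PC ψ' (-1) ((2 : ℝ) ^ k) f1 a t x‖ₑ ^ p) := by
      apply setLIntegral_mono' hbox
      intro a ha
      apply lintegral_mono
      intro t
      apply lintegral_mono
      intro x
      exact pt_rpow x0 p hx hp0 _ _ _ _ _ (hpt a ha t x)
    have step2 := lint3 (volume.restrict (box n)) (volume.restrict (Icc (1 : ℝ) 2))
      (volume : Measure (Fin n → ℝ))
      (fun q => ‖PC ψ 1 ((2 : ℝ) ^ k) f0 q.1.1 q.1.2 q.2‖ₑ ^ p)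
      (fun q => ‖PC ψ (-1) ((2 : ℝ) ^ k) f0 q.1.1 q.1.2 q.2‖ₑ ^ p)
      (fun q => ‖PC ψ' 1 ((2 : ℝ) ^ k) f1 q.1.1 q.1.2 q.2‖ₑ ^ p)
      (fun q => ‖PC ψ' (-1) ((2 : ℝ) ^ k) f1 q.1.1 q.1.2 q.2‖ₑ ^ p)
      (M1.enorm.pow_const p) (M2.enorm.pow_const p) (M3.enorm.pow_const p) (M4.enorm.pow_const p)
      (ENNReal.ofReal ((4 * x0) ^ p)) ENNReal.ofReal_ne_top
    rw [hDN]
    have step3 := fin_bd ((4 * x0) ^ p) b (D0 ^ p) (D1 ^ p) (by positivity) hb0 hD0p.le hD1p.le Y0 Y1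
    have step4 := le_trans (chain4 _ _ _ _ _ _ _ _ _ _ _ _ _ (le_trans step1 (le_of_eq step2))
      B1 B2 B3 B4 b0p b1p) step3
    refine le_trans step4 (mul_le_mul_left (ENNReal.ofReal_le_ofReal ?_) _)
    have e1 : (4 * x0) ^ p = 4 ^ p * x0 ^ p := Real.mul_rpow (by norm_num) hx.le
    have e2 : x0 ^ p * ((2 : ℝ) ^ k) ^ (p / 2 - 1) = (2 : ℝ) ^ ((k : ℝ) * (p / 2 - 1 - p * s)) := by
      rw [hxe, ← Real.rpow_mul (by norm_num), ← Real.rpow_natCast 2 k,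
        ← Real.rpow_mul (by norm_num), ← Real.rpow_add (by norm_num)]
      congr 1
      ring
    have e3 : (4 : ℝ) ^ p ≤ 8 ^ p := Real.rpow_le_rpow (by norm_num) (by norm_num) hp0
    rw [e1, hb, ← e2]
    exact num1 _ _ _ _ _ _ _ _ _ _ (by positivity) hCL.le hCM.le hNp.le (by positivity)
      (by positivity) hlog (by positivity) (by positivity) e3
  · -- the second claim
    set b : ℝ := CM * N ^ p * (1 + Real.log ((2 : ℝ) ^ k)) ^ n with hb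
    have hb0 : 0 ≤ b := by positivity
    have hp20 : 0 ≤ p / 2 := by linarith
    have T1 := sq_meas _ M1
    have T2 := sq_meas _ M2
    have T3 := sq_meas _ M3
    have T4 := sq_meas _ M4
    have step1 : ∫⁻ a in box n, ∫⁻ x, (∫⁻ t in Icc (1 : ℝ) 2,
        ‖Wm (fun y => ψ (((4 : ℝ) ^ k)⁻¹ * y)) (⇑u₀) (⇑u₁) a t x‖ₑ ^ (2 : ℝ)) ^ (p / 2) ≤
        ∫⁻ a in box n, ∫⁻ x, ENNReal.ofReal ((4 * (4 * x0) ^ (2 : ℝ)) ^ (p / 2)) *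
          ((∫⁻ t in Icc (1 : ℝ) 2, ‖PC ψ 1 ((2 : ℝ) ^ k) f0 a t x‖ₑ ^ (2 : ℝ)) ^ (p / 2) +
           (∫⁻ t in Icc (1 : ℝ) 2, ‖PC ψ (-1) ((2 : ℝ) ^ k) f0 a t x‖ₑ ^ (2 : ℝ)) ^ (p / 2) +
           (∫⁻ t in Icc (1 : ℝ) 2, ‖PC ψ' 1 ((2 : ℝ) ^ k) f1 a t x‖ₑ ^ (2 : ℝ)) ^ (p / 2) +
           (∫⁻ t in Icc (1 : ℝ) 2, ‖PC ψ' (-1) ((2 : ℝ) ^ k) f1 a t x‖ₑ ^ (2 : ℝ)) ^ (p / 2)) := by
      apply setLIntegral_mono' hbox
      intro a ha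
      apply lintegral_mono
      intro x
      apply pt_rpow _ _ (by positivity) hp20
      have s1 := sec_meas _ M1 a x
      have s2 := sec_meas _ M2 a x
      have s3 := sec_meas _ M3 a x
      exact lint1 _ _ _ _ _ _ s1 s2 s3 _ ENNReal.ofReal_ne_top
        (fun t => pt_rpow x0 2 hx (by norm_num) _ _ _ _ _ (hpt a ha t x))
    have step2 := lint2 (volume.restrict (box n)) (volume : Measure (Fin n → ℝ))
      (fun q => (∫⁻ t in Icc (1 : ℝ) 2, ‖PC ψ 1 ((2 : ℝ) ^ k) f0 q.1 t q.2‖ₑ ^ (2 : ℝ)) ^ (p / 2))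
      (fun q => (∫⁻ t in Icc (1 : ℝ) 2, ‖PC ψ (-1) ((2 : ℝ) ^ k) f0 q.1 t q.2‖ₑ ^ (2 : ℝ)) ^ (p / 2))
      (fun q => (∫⁻ t in Icc (1 : ℝ) 2, ‖PC ψ' 1 ((2 : ℝ) ^ k) f1 q.1 t q.2‖ₑ ^ (2 : ℝ)) ^ (p / 2))
      (fun q => (∫⁻ t in Icc (1 : ℝ) 2, ‖PC ψ' (-1) ((2 : ℝ) ^ k) f1 q.1 t q.2‖ₑ ^ (2 : ℝ)) ^ (p / 2))
      (T1.pow_const _) (T2.pow_const _) (T3.pow_const _) (T4.pow_const _)
      (ENNReal.ofReal ((4 * (4 * x0) ^ (2 : ℝ)) ^ (p / 2))) ENNReal.ofReal_ne_top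
    rw [hDN]
    have step3 := fin_bd ((4 * (4 * x0) ^ (2 : ℝ)) ^ (p / 2)) b (D0 ^ p) (D1 ^ p) (by positivity)
      hb0 hD0p.le hD1p.le Y0 Y1
    have step4 := le_trans (chain4 _ _ _ _ _ _ _ _ _ _ _ _ _ (le_trans step1 (le_of_eq step2))
      E1 E2 E3 E4 b0p b1p) step3
    refine le_trans step4 (mul_le_mul_left (ENNReal.ofReal_le_ofReal ?_) _)
    have e1 : (4 * (4 * x0) ^ (2 : ℝ)) ^ (p / 2) = 8 ^ p * x0 ^ p := by
      have : 4 * (4 * x0) ^ (2 : ℝ) = (8 * x0) ^ (2 : ℝ) := by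
        rw [Real.rpow_two, Real.rpow_two]
        ring
      rw [this, ← Real.rpow_mul (by positivity), mul_div_cancel₀ p (by norm_num : (2 : ℝ) ≠ 0),
        Real.mul_rpow (by norm_num) hx.le]
    have e2 : x0 ^ p = (2 : ℝ) ^ (-((k : ℝ) * (p * s))) := by
      rw [hxe, ← Real.rpow_mul (by norm_num)]
      congr 1
      ring
    rw [e1, hb, ← e2]
    have := num1 (x0 ^ p) CM CL (N ^ p) 1 ((1 + Real.log ((2 : ℝ) ^ k)) ^ n) ((1 + (k : ℝ)) ^ n)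
      (D0 ^ p + D1 ^ p) (8 ^ p) (8 ^ p) (by positivity) hCM.le hCL.le hNp.le zero_le_one
      (by positivity) hlog (by positivity) (by positivity) le_rfl
    rw [one_mul, mul_one, add_comm CM CL] at this
    exact this

end Pool.Agent.W856.WV
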